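import Pool.Agent.H7.KR.Stmts

/-! # Board kr, row EDS: the inequality for an edge with some vertices left out -/

set_option autoImplicit false

open Finset

namespace Pool.KR

open Pool.Agent.H23.KT Pool.Agent.H46.KW Pool.KQ

theorem eds (h1 : YSMStmt) (h2 : PTWStmt) (h3 : LCQStmt) (h4 : BALStmt) : EDSStmt := by
  intro p
  obtain ⟨a₀, ha₀⟩ := h3 p
  refine ⟨a₀, ?_⟩
  intro a ha V _ _ G hG v u hu W₀ hW₀ hlt hle
  have hCB : CB G W₀ (p + 2) := ((hG.cb.nb (mem_univ v)).nb hu).mono hW₀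
  have hDe : (p + 2) * (a + 1) = (p + 2) * a + (p + 2) := by ring
  set D : ℝ := ((p : ℝ) + 2) * (a + 1) with hD
  have hp0 : (0 : ℝ) ≤ p := Nat.cast_nonneg p
  have ha0 : (0 : ℝ) ≤ a := Nat.cast_nonneg a
  have hp4 : (0 : ℝ) < (p : ℝ) + 4 := by positivity
  have hDn : ((co G v u).card : ℝ) ≤ D := by
    rw [hD]
    exact_mod_cast hle
  have hmn : (W₀.card : ℝ) + 1 ≤ (co G v u).card := by exact_mod_cast hlt
  have hinv : 1 / ((p : ℝ) + 4) ≤ 1 / 4 := by
    apply one_div_le_one_div_of_le (by norm_num)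
    linarith
  have hinv0 : 0 < 1 / ((p : ℝ) + 4) := by positivity
  set n : ℝ := ((co G v u).card : ℝ) with hn
  set m : ℝ := (W₀.card : ℝ) with hm
  have hmax : max (D - n) 0 = D - n := max_eq_left (by linarith)
  -- the pointwise bounds
  have key : ∀ S ∈ clq G W₀ (p + 2),
      yy G p a (insert v (insert u S)) v + 3 / 4 ≤
        D - m + 5 / 4 / ((p : ℝ) + 4) * ze G p W₀ S ∧
      yy G p a (insert v (insert u S)) v ≤ p + 2 ∧
      (D - m ≤ p + 2 → yy G p a (insert v (insert u S)) v + 3 / 4 ≤ p + 2) := by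
    intro S hS
    obtain ⟨b1, b2⟩ := h2 G p a hG v u hu W₀ hW₀ S hS
    rw [← hD, ← hn, hmax] at b1 b2
    have hz : (0 : ℝ) ≤ (ze G p W₀ S : ℝ) := Nat.cast_nonneg _
    rw [← hm] at b1
    rw [max_eq_left (by linarith)] at b1
    set ζ : ℝ := (ze G p W₀ S : ℝ) with hζ
    set y : ℝ := yy G p a (insert v (insert u S)) v with hy
    set i : ℝ := 1 / ((p : ℝ) + 4) with hi
    have e1 : (D - m + ζ - (D - n)) / ((p : ℝ) + 4) = (n - m + ζ) * i := by
      rw [hi]; ring
    have e2 : 5 / 4 / ((p : ℝ) + 4) * ζ = 5 / 4 * (ζ * i) := by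
      rw [hi]; ring
    rw [e1] at b1
    rw [e2]
    have hζi : 0 ≤ ζ * i := mul_nonneg hz hinv0.le
    have hgi : 0 ≤ (n - m - 1) * (1 - i) := mul_nonneg (by linarith) (by linarith)
    obtain ⟨hS1, hS2, hS3⟩ := (mem_clq G).1 hS
    have hSco : ∀ x ∈ S, G.Adj v x ∧ G.Adj u x := by
      intro x hx
      have hx2 := hW₀ (hS1 hx)
      unfold co at hx2
      rw [mem_nb, mem_nb] at hx2
      exact ⟨hx2.1.2, hx2.2⟩
    have huv : G.Adj v u := ((mem_nb G).1 hu).2
    have hcard : (insert v (insert u S)).card = p + 4 := by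
      rw [card_insert_of_notMem, card_insert_of_notMem, hS2]
      · intro h
        exact G.loopless.irrefl u (hSco u h).2
      · intro h
        rcases mem_insert.1 h with h | h
        · rw [h] at huv
          exact G.loopless.irrefl u huv
        · exact G.loopless.irrefl v (hSco v h).1
    obtain ⟨-, -, c3⟩ := h1 G p a (insert v (insert u S)) hcard
    refine ⟨?_, c3 v (mem_insert_self _ _), ?_⟩
    · nlinarith
    · intro hd
      rw [max_eq_left (by linarith)] at b2
      have e3 : ((p : ℝ) + 2 - (D - n)) / ((p : ℝ) + 4) = ((p : ℝ) + 2 - (D - n)) * i := by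
        rw [hi]; ring
      rw [e3] at b2
      have h5 : 0 ≤ ((p : ℝ) + 1 - (D - n)) * (1 - i) := mul_nonneg (by linarith) (by linarith)
      nlinarith
  have hES : ES G p a v u W₀ + 3 / 4 * kc G W₀ (p + 2) =
      a * kc G W₀ (p + 2) + ∑ S ∈ clq G W₀ (p + 2),
        (yy G p a (insert v (insert u S)) v + 3 / 4) := by
    unfold ES
    rw [sum_add_distrib, sum_add_distrib, sum_const, sum_const, nsmul_eq_mul, nsmul_eq_mul, kc_eq]
    ring
  rw [hES]
  rcases le_or_gt (D - m) ((p : ℝ) + 2) with hd | hd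
  · have hL := ha₀ (p + 2) le_rfl a ha G W₀ hCB (by
      have := card_le_card hW₀
      omega)
    have hs : ∑ S ∈ clq G W₀ (p + 2), (yy G p a (insert v (insert u S)) v + 3 / 4) ≤
        ∑ S ∈ clq G W₀ (p + 2), min (((p + 2 : ℕ)) : ℝ)
          ((((p + 2) * a + (p + 2) : ℕ) : ℝ) - W₀.card + 5 / 4 / ((p : ℝ) + 4) * ze G p W₀ S) := by
      apply sum_le_sum
      intro S hS
      obtain ⟨k1, k2, k3⟩ := key S hS
      apply le_min
      · push_cast
        exact k3 hd
      · rw [← hDe]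
        push_cast
        rw [← hD]
        exact k1
    rw [← hDe] at hL
    rw [← hDe] at hs
    nlinarith
  · -- large `d`
    have hdn : p + 3 ≤ (p + 2) * (a + 1) - W₀.card := by
      have h5 : (W₀.card : ℝ) + (p + 2) < (p + 2) * (a + 1) := by
        rw [← hm, ← hD]
        linarith
      have h6 : W₀.card + (p + 2) < (p + 2) * (a + 1) := by exact_mod_cast h5
      omega
    have hdr : (p : ℝ) + 3 ≤ D - m := by
      have h5 : W₀.card + (p + 3) ≤ (p + 2) * (a + 1) := by omega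
      have h6 : (W₀.card : ℝ) + (p + 3) ≤ (p + 2) * (a + 1) := by exact_mod_cast h5
      rw [← hm, ← hD] at h6
      linarith
    have hs : ∑ S ∈ clq G W₀ (p + 2), (yy G p a (insert v (insert u S)) v + 3 / 4) ≤
        ∑ S ∈ clq G W₀ (p + 2), (D - m) := by
      apply sum_le_sum
      intro S hS
      obtain ⟨k1, k2, k3⟩ := key S hS
      linarith
    rw [sum_const, nsmul_eq_mul, ← kc_eq] at hs
    have hz : kc G W₀ (p + 2) ≤ bal (p + 2) W₀.card := zyk (p + 1) W₀ hCB
    have hzr : (kc G W₀ (p + 2) : ℝ) ≤ bal (p + 2) W₀.card := by exact_mod_cast hz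
    have hb := h4.2.1 (p + 2) a W₀.card ((p + 2) * (a + 1)) (by omega)
      (by have := card_le_card hW₀; omega) (by rw [hDe])
    push_cast at hb
    rw [← hD, ← hm] at hb
    have h7 : (0 : ℝ) ≤ a + (D - m) := by linarith
    have h8 : ((a : ℝ) + (D - m)) * kc G W₀ (p + 2) ≤ (a + (D - m)) * bal (p + 2) W₀.card :=
      mul_le_mul_of_nonneg_left hzr h7
    linarith

end Pool.KR
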